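import Pool.Agent.Y74.OC.Cop
import Pool.Agent.W649.ZL.Supp

set_option autoImplicit false

universe u v

namespace Pool.Agent.Results.MP_0f25e6_al.OrderedCosets

/-- `α * f` is nonzero for every nonzero square-summable `f`, where
`(α * f)(g) = ∑ α(k) f(k⁻¹ g)`. -/
def Regular {G : Type u} [Group G] (α : G →₀ ℂ) : Prop :=
  ∀ f : G → ℂ, Memℓp f 2 → f ≠ 0 → ∃ g : G, ∑ k ∈ α.support, α k * f (k⁻¹ * g) ≠ 0

/-- All square-summable `f` with `α * f = 0`. -/
def kernel {G : Type u} [Group G] (α : G →₀ ℂ) : Set (lp (fun _ : G => ℂ) 2) :=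
  {f | ∀ g : G, ∑ k ∈ α.support, α k * f (k⁻¹ * g) = 0}

open Classical in
/-- The von Neumann dimension of the kernel of left convolution by `α`: one minus the square of the
distance from the basis vector at the identity of `G` to the kernel (this is the squared length of
the projection of that vector to the kernel). -/
noncomputable def kerDim {G : Type u} [Group G] (α : G →₀ ℂ) : ℝ :=
  1 - Metric.infDist (lp.single 2 (1 : G) (1 : ℂ)) (kernel α) ^ 2

/-- The group acts by order preserving maps on the totally ordered set `Ω`. -/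
def OrderAction (G : Type u) (Ω : Type v) [Group G] [LinearOrder Ω] [MulAction G Ω] : Prop :=
  ∀ (g : G) (x y : Ω), x ≤ y → g • x ≤ g • y

/-- Every nontrivial finitely generated subgroup `K` of `G` has one of the following properties:
every nonzero element of its group algebra is regular, or `K` acts on some totally ordered set by
order preserving maps, not all of which are the identity. -/
def LocallyGood (G : Type u) [Group G] : Prop :=
  ∀ K : Subgroup G, K.FG → K ≠ ⊥ →
    (∀ β : K →₀ ℂ, β ≠ 0 → Regular β) ∨
    (∃ (Ω : Type u) (_ : LinearOrder Ω) (_ : MulAction K Ω),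
      OrderAction K Ω ∧ ∃ (k : K) (ω : Ω), k • ω ≠ ω)

theorem kerDim_eq {G : Type u} [Group G] (α : G →₀ ℂ) :
    kerDim α = W649.ZL.vd (LinearMap.ker
      (W649.ZL.cop α : W649.ZL.EE G Unit →ₗ[ℂ] W649.ZL.EE G Unit)) :=
  W649.ZL.kerDim_eq_vd α

/-- 1. Let a group `G` (with or without torsion) act on a totally ordered set `Ω` by order
preserving maps, let `ω` be a point of `Ω` and let `α` be an element of the complex group algebra.
Let `g₀` be such that `g₀ ω ≤ g ω` for all `g` in the support of `α`. Then the von Neumann dimension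
of the kernel of `α` on `ℓ²(G)` is at most that of the lowest part of `α`, the sum of the terms
`α(g) g` with `g ω = g₀ ω`; in particular `α * f ≠ 0` for all nonzero `f` in `ℓ²(G)` if the same
holds for the lowest part.

2. Suppose that every nontrivial finitely generated subgroup of `G` acts nontrivially by order
preserving maps on a totally ordered set or satisfies the analytic zero divisor conjecture. Then
`G` satisfies the analytic zero divisor conjecture. -/
theorem result :
    (∀ (G : Type u) (Ω : Type v) [Group G] [LinearOrder Ω] [MulAction G Ω], OrderAction G Ω →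
      ∀ (ω : Ω) (g₀ : G) (α : G →₀ ℂ), (∀ g ∈ α.support, g₀ • ω ≤ g • ω) →
        kerDim α ≤ kerDim (α.filter (fun g => g • ω = g₀ • ω)) ∧
        (Regular (α.filter (fun g => g • ω = g₀ • ω)) → Regular α)) ∧
    (∀ (G : Type u) [Group G], LocallyGood G → ∀ α : G →₀ ℂ, α ≠ 0 → Regular α) := by
  refine ⟨fun G Ω _ _ _ hmono ω g₀ α hα => ?_, fun G _ hG α hα => ?_⟩
  · have h1 := Y74.OC.vd_le_of_action hmono ω g₀ α hα
    refine ⟨by rw [kerDim_eq, kerDim_eq]; exact h1, fun hreg => ?_⟩
    apply (W649.ZL.regular_iff α).2
    apply W649.ZL.injective_of_vd_eq_zero _ (W649.ZL.cop_eqv _)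
    have h2 := W649.ZL.vd_ker_of_injective _ ((W649.ZL.regular_iff _).1 hreg)
    rw [h2] at h1
    exact h1
  · apply (W649.ZL.regular_iff α).2
    refine Y74.OC.LocActs.reg ?_ α hα
    intro K hK hKne
    rcases hG K hK hKne with h | ⟨Ω, iL, iA, h1, h2⟩
    · exact Or.inl fun β hβ => (W649.ZL.regular_iff β).1 (h β hβ)
    · exact Or.inr ⟨Ω, iL, iA, h1, h2⟩

end Pool.Agent.Results.MP_0f25e6_al.OrderedCosets
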